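import Pool.Agent.N162.CV.Pl

set_option autoImplicit false

/-!
CV/GEN: points of a generic surface over a small field.
-/

open MvPolynomial

namespace Pool.Agent.N490.CV

open Pool.Agent.N162.CV

/-- the exponents of degree `d` -/
noncomputable def Ex (d : ℕ) : Finset (Fin 4 →₀ ℕ) := Finset.finsuppAntidiag Finset.univ d

lemma mem_Ex {d : ℕ} {e : Fin 4 →₀ ℕ} : e ∈ Ex d ↔ e.degree = d := by
  unfold Ex
  rw [Finset.mem_finsuppAntidiag, Finsupp.degree_eq_sum]
  simp

lemma eval_hom {Ω : Type} [Field Ω] {d : ℕ} {G : MvPolynomial (Fin 4) Ω} (hG : G.IsHomogeneous d)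
    (q : Fin 4 → Ω) : eval q G = ∑ e ∈ Ex d, G.coeff e * ∏ j, q j ^ e j := by
  rw [eval_eq']
  apply Finset.sum_subset
  · intro e he
    rw [mem_Ex]
    have h := hG (mem_support_iff.1 he)
    rw [Finsupp.degree_eq_weight_one]
    exact h
  · intro e _ he
    rw [notMem_support_iff.1 he, zero_mul]

/-- at most `d + 1` points impose independent conditions on the forms of degree `d` -/
lemma sep {Ω : Type} [Field Ω] {d : ℕ} (Q : Finset (Fin 4 → Ω)) (h1 : ∀ q ∈ Q, q 0 = 1)
    (hc : Q.card ≤ d + 1) {q0 : Fin 4 → Ω} (hq : q0 ∈ Q) :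
    ∃ G : MvPolynomial (Fin 4) Ω, G.IsHomogeneous d ∧ eval q0 G ≠ 0 ∧
      ∀ q ∈ Q, q ≠ q0 → eval q G = 0 := by
  classical
  have h2 : ∀ q : Fin 4 → Ω, ∃ c : Fin 4, q ≠ q0 → q c ≠ q0 c := by
    intro q
    by_cases h : q = q0
    · exact ⟨0, fun h' => absurd h h'⟩
    · obtain ⟨c, hc⟩ := Function.ne_iff.1 h
      exact ⟨c, fun _ => hc⟩
  choose c hcc using h2
  refine ⟨X 0 ^ (d - (Q.erase q0).card) * ∏ q ∈ Q.erase q0, (X (c q) - C (q (c q)) * X 0), ?_, ?_, ?_⟩
  · have h3 : (∏ q ∈ Q.erase q0, (X (c q) - C (q (c q)) * X 0 : MvPolynomial (Fin 4) Ω)).IsHomogeneous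
        (∑ q ∈ Q.erase q0, 1) := by
      apply IsHomogeneous.prod
      intro q _
      apply IsHomogeneous.sub (isHomogeneous_X _ _)
      have h := (isHomogeneous_C (Fin 4) (q (c q))).mul (isHomogeneous_X Ω (0 : Fin 4))
      rwa [zero_add] at h
    have h4 := (isHomogeneous_X_pow (R := Ω) (0 : Fin 4) (d - (Q.erase q0).card)).mul h3
    have h5 : d - (Q.erase q0).card + ∑ q ∈ Q.erase q0, 1 = d := by
      have := Finset.card_erase_of_mem hq
      rw [Finset.sum_const, smul_eq_mul, mul_one]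
      omega
    rwa [h5] at h4
  · rw [map_mul, map_pow, map_prod, eval_X, h1 q0 hq, one_pow, one_mul, Finset.prod_ne_zero_iff]
    intro q hq'
    rw [map_sub, map_mul, eval_X, eval_C, eval_X, h1 q0 hq, mul_one]
    exact sub_ne_zero.2 (Ne.symm (hcc q (Finset.ne_of_mem_erase hq')))
  · intro q hq' hne
    rw [map_mul, map_prod]
    apply mul_eq_zero_of_right
    apply Finset.prod_eq_zero (Finset.mem_erase.2 ⟨hne, hq'⟩)
    rw [map_sub, map_mul, eval_X, eval_C, eval_X, h1 q hq', mul_one, sub_self]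

/-- elements algebraic over `ℚ(S)` and linear combinations of elements of `b` are in the closure of
`S ∪ b` -/
lemma span_closure {Ω : Type} [Field Ω] [CharZero Ω] (S b : Set Ω) {x : Ω}
    (hx : x ∈ Submodule.span (algebraicClosure (IntermediateField.adjoin ℚ S) Ω) b) :
    x ∈ (AlgebraicIndependent.matroid ℚ Ω).closure (S ∪ b) := by
  have hk : ∀ y ∈ algebraicClosure (IntermediateField.adjoin ℚ S) Ω,
      y ∈ (AlgebraicIndependent.matroid ℚ Ω).closure (S ∪ b) := by
    intro y hy
    have h1 : y ∈ (AlgebraicIndependent.matroid ℚ Ω).closure S := by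
      rw [AlgebraicIndependent.matroid_closure_eq]
      rw [mem_algebraicClosure_iff, IntermediateField.isAlgebraic_adjoin_iff] at hy
      exact hy
    exact (AlgebraicIndependent.matroid ℚ Ω).closure_subset_closure Set.subset_union_left h1
  have hb : ∀ y ∈ b, y ∈ (AlgebraicIndependent.matroid ℚ Ω).closure (S ∪ b) := fun y hy =>
    (AlgebraicIndependent.matroid ℚ Ω).subset_closure _ (Set.subset_univ _) (Or.inr hy)
  rw [AlgebraicIndependent.matroid_closure_eq] at hk hb ⊢
  induction hx using Submodule.span_induction with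
  | mem y hy => exact hb y hy
  | zero => exact zero_mem _
  | add y z _ _ hy hz => exact add_mem hy hz
  | smul c y _ hy =>
    rw [Algebra.smul_def]
    exact mul_mem (hk _ c.2) hy

theorem gen_ : StGEN := by
  intro Ω _ _ _ d F hF hind S Q hQ0 hQalg hQF hQc
  classical
  set k := algebraicClosure (IntermediateField.adjoin ℚ (S : Set Ω)) Ω with hk
  set f : (Fin 4 →₀ ℕ) → Ω := fun e => algebraMap ℂ Ω (F.coeff e) with hf
  have hq : ∀ q ∈ Q, ∀ j, q j ∈ k := fun q hq j => mem_algebraicClosure_iff.2 (hQalg q hq j)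
  have hmon : ∀ q ∈ Q, ∀ e : Fin 4 →₀ ℕ, ∏ j, q j ^ e j ∈ k := fun q h e =>
    prod_mem fun j _ => pow_mem (hq q h j) _
  let A : Q → (Ex d → k) := fun q e => ⟨∏ j, q.1 j ^ e.1 j, hmon q.1 q.2 e.1⟩
  have hA : LinearIndependent k A := by
    rw [Fintype.linearIndependent_iff]
    intro g hg q0
    obtain ⟨G, hG1, hG2, hG3⟩ := sep Q hQ0 hQc q0.2
    have h2 : ∀ e : Ex d, ∑ q : Q, (g q : Ω) * ∏ j, q.1 j ^ e.1 j = 0 := by
      intro e
      have h3 := congrFun hg e
      rw [Finset.sum_apply] at h3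
      have h4 := congrArg (algebraMap k Ω) h3
      rw [map_sum, Pi.zero_apply, map_zero] at h4
      rw [← h4]
      apply Finset.sum_congr rfl
      intro q _
      rw [Pi.smul_apply, smul_eq_mul, map_mul]
      rfl
    have h1 : ∑ q : Q, (g q : Ω) * eval q.1 G = 0 := by
      calc ∑ q : Q, (g q : Ω) * eval q.1 G
          = ∑ q : Q, ∑ e : Ex d, (g q : Ω) * (G.coeff e * ∏ j, q.1 j ^ e.1 j) := by
            apply Finset.sum_congr rfl
            intro q _
            rw [eval_hom hG1, ← Finset.sum_coe_sort, Finset.mul_sum]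
        _ = ∑ e : Ex d, ∑ q : Q, (g q : Ω) * (G.coeff e * ∏ j, q.1 j ^ e.1 j) := Finset.sum_comm
        _ = ∑ e : Ex d, G.coeff e * ∑ q : Q, (g q : Ω) * ∏ j, q.1 j ^ e.1 j := by
            apply Finset.sum_congr rfl
            intro e _
            rw [Finset.mul_sum]
            apply Finset.sum_congr rfl
            intro q _
            ring
        _ = 0 := Finset.sum_eq_zero fun e _ => by rw [h2 e, mul_zero]
    rw [Finset.sum_eq_single q0 (fun q _ hne => by
      rw [hG3 q.1 q.2 (fun h => hne (Subtype.ext h)), mul_zero]) (fun h => absurd (Finset.mem_univ _) h)] at h1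
    have h5 : (g q0 : Ω) = 0 := (mul_eq_zero.1 h1).resolve_right hG2
    exact Subtype.ext h5
  let Φ : (Ex d → k) →ₗ[k] Ω := Fintype.linearCombination k (fun e : Ex d => f e.1)
  have hker : ∀ q, A q ∈ LinearMap.ker Φ := by
    intro q
    rw [LinearMap.mem_ker]
    have h1 : aeval q.1 F = 0 := hQF q.1 q.2
    have h2 : aeval q.1 F = eval q.1 (map (algebraMap ℂ Ω) F) := by
      rw [eval_map, aeval_def]
    rw [h2, eval_hom (hF.map (algebraMap ℂ Ω)), ← Finset.sum_coe_sort] at h1
    rw [← h1]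
    change (Fintype.linearCombination k (fun e : Ex d => f e.1)) (A q) = _
    rw [Fintype.linearCombination_apply]
    apply Finset.sum_congr rfl
    intro e _
    rw [Algebra.smul_def, coeff_map, mul_comm]
    rfl
  have h1 : Q.card ≤ Module.finrank k (LinearMap.ker Φ) := by
    have h2 : LinearIndependent k (fun q : Q => (⟨A q, hker q⟩ : LinearMap.ker Φ)) :=
      LinearIndependent.of_comp (LinearMap.ker Φ).subtype hA
    have h3 := h2.fintype_card_le_finrank
    rwa [Fintype.card_coe] at h3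
  have h2 : Module.finrank k (LinearMap.range Φ) + Module.finrank k (LinearMap.ker Φ) = (Ex d).card := by
    rw [LinearMap.finrank_range_add_finrank_ker, Module.finrank_fintype_fun_eq_card, Fintype.card_coe]
  obtain ⟨b, hb1, hb2, hb3⟩ := exists_linearIndependent k (Set.range (fun e : Ex d => f e.1))
  have hbfin : b.Finite := (Set.finite_range _).subset hb1
  have h3 : Module.finrank k (LinearMap.range Φ) = b.ncard := by
    have e1 : LinearMap.range Φ = Submodule.span k b := by
      rw [hb2]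
      exact Fintype.range_linearCombination k _
    rw [e1]
    have := hbfin.fintype
    rw [finrank_span_set_eq_card hb3, Set.ncard_eq_toFinset_card']
  -- the matroid
  set M := AlgebraicIndependent.matroid ℚ Ω with hM
  have h4 : ∀ e : Ex d, f e.1 ∈ M.closure ((S : Set Ω) ∪ b) := by
    intro e
    apply span_closure
    rw [← hk, hb2]
    exact Submodule.subset_span ⟨e, rfl⟩
  have h5 : AlgebraicIndependent ℚ (fun e : {e : Fin 4 →₀ ℕ // e.degree = d} => f e.1) := by
    have h6 := hind.map' (f := (algebraMap ℂ Ω).toRatAlgHom) (algebraMap ℂ Ω).injective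
    exact h6
  have h6 : M.Indep (Set.range (fun e : {e : Fin 4 →₀ ℕ // e.degree = d} => f e.1)) := by
    rw [hM, AlgebraicIndependent.matroid_indep_iff]
    exact h5.coe_range
  have h7 : Set.range (fun e : {e : Fin 4 →₀ ℕ // e.degree = d} => f e.1) ⊆
      M.closure ((S : Set Ω) ∪ b) := by
    rintro _ ⟨e, rfl⟩
    exact h4 ⟨e.1, mem_Ex.2 e.2⟩
  have h8 := h6.encard_le_eRk_of_subset h7
  rw [M.eRk_closure_eq] at h8
  have h9 := h8.trans (M.eRk_le_encard _)
  have h10 : (Set.range (fun e : {e : Fin 4 →₀ ℕ // e.degree = d} => f e.1)).encard = (Ex d).card := by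
    rw [← Set.image_univ, h5.injective.encard_image, Set.encard_univ]
    rw [ENat.card_congr (Equiv.subtypeEquivRight (fun e => (mem_Ex (d := d) (e := e)).symm))]
    rw [ENat.card_eq_coe_natCard, Nat.card_eq_fintype_card, Fintype.card_coe]
  have h11 : ((S : Set Ω) ∪ b).encard ≤ ((S.card + b.ncard : ℕ) : ℕ∞) := by
    refine (Set.encard_union_le _ _).trans ?_
    rw [Set.encard_coe_eq_coe_finsetCard, ← hbfin.cast_ncard_eq, ← Nat.cast_add]
  rw [h10] at h9
  have h12 : (Ex d).card ≤ S.card + b.ncard := by exact_mod_cast h9.trans h11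
  omega

end Pool.Agent.N490.CV
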