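import Mathlib
import Pool.Agent.N753.DR.Stm2
import Pool.Agent.N97.DR.Core

/-!
# (CV/COREB) incomplete norm forms: the radical of the value is almost always large

Adapted from `Pool.Agent.N97.DR.Core` (helper97).
-/

set_option autoImplicit false

namespace Pool.Agent.N490.CV.CoreB

open NumberField IsDedekindDomain Module Pool.Agent.N753.DR
open Pool.Agent.N97.DR.Core (Rare rpow_le_rpow_nat Bx_finite norm_le_sz log_norm ex dv mem_dv ex_pos
  mem_pow_ex log_norm_fin lN_nonneg bl bl_over mem_mul)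

section key

variable {K L : Type} [Field K] [NumberField K] [Field L] [NumberField L] [Algebra K L]

lemma evB_le {m : ℕ} (β : Fin m → 𝓞 L) : ∃ C₁ : ℝ, 1 ≤ C₁ ∧ ∀ (B : ℕ) (c : Fin m → 𝓞 K),
    c ∈ Bx K m B → ∀ w : InfinitePlace L, w (evB K β c : L) ≤ C₁ * B := by
  let τ : InfinitePlace L → 𝓞 L →+* ℂ := fun w => w.embedding.comp (algebraMap (𝓞 L) L)
  let A : InfinitePlace L → ℝ := fun w =>
    ∑ i, ‖((τ w).comp (algebraMap (𝓞 K) (𝓞 L))) (RingOfIntegers.basis K i)‖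
  have hA : ∀ w, 0 ≤ A w := fun w => Finset.sum_nonneg fun _ _ => norm_nonneg _
  let D : InfinitePlace L → ℝ := fun w => ∑ i : Fin m, A w * ‖τ w (β i)‖
  have hD : ∀ w, 0 ≤ D w := fun w => Finset.sum_nonneg fun _ _ =>
    mul_nonneg (hA w) (norm_nonneg _)
  refine ⟨1 + ∑ w, D w, ?_, fun B c hc w => ?_⟩
  · have := Finset.sum_nonneg (s := Finset.univ) fun w _ => hD w
    linarith
  · have h1 : w (evB K β c : L) = ‖τ w (evB K β c)‖ := (InfinitePlace.norm_embedding_eq w _).symm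
    have h2 : τ w (evB K β c) = ∑ i : Fin m, (τ w) (algebraMap (𝓞 K) (𝓞 L) (c i)) *
        τ w (β i) := by
      unfold evB
      rw [AddMonoidHom.coe_mk, ZeroHom.coe_mk, map_sum]
      refine Finset.sum_congr rfl fun i _ => ?_
      rw [map_mul]
    have h3 : D w ≤ ∑ w, D w := Finset.single_le_sum (fun w _ => hD w) (Finset.mem_univ w)
    rw [h1, h2]
    calc ‖∑ i : Fin m, (τ w) (algebraMap (𝓞 K) (𝓞 L) (c i)) * τ w (β i)‖
        ≤ ∑ i : Fin m, ‖(τ w) (algebraMap (𝓞 K) (𝓞 L) (c i)) * τ w (β i)‖ := norm_sum_le _ _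
      _ ≤ ∑ i : Fin m, A w * ‖τ w (β i)‖ * B := by
          refine Finset.sum_le_sum fun i _ => ?_
          rw [norm_mul]
          have h4 := norm_le_sz ((τ w).comp (algebraMap (𝓞 K) (𝓞 L))) (c i)
          have h5 : (sz (c i) : ℝ) ≤ B := by exact_mod_cast hc i
          have h6 : ‖(τ w) (algebraMap (𝓞 K) (𝓞 L) (c i))‖ ≤ A w * B :=
            h4.trans (mul_le_mul_of_nonneg_left h5 (hA w))
          calc ‖(τ w) (algebraMap (𝓞 K) (𝓞 L) (c i))‖ * ‖τ w (β i)‖ ≤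
              (A w * B) * ‖τ w (β i)‖ := mul_le_mul_of_nonneg_right h6 (norm_nonneg _)
            _ = _ := by ring
      _ = D w * B := by rw [← Finset.sum_mul]
      _ ≤ (1 + ∑ w, D w) * B := mul_le_mul_of_nonneg_right (by linarith) (Nat.cast_nonneg _)

/-- the primes without double zeros -/
lemma good_part {m : ℕ} (β : Fin m → 𝓞 L) (c : Fin m → 𝓞 K) (Bad W : Finset (HeightOneSpectrum (𝓞 K)))
    (hW : ∀ v ∉ Bad, ∀ w : HeightOneSpectrum (𝓞 L), w.asIdeal.LiesOver v.asIdeal →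
        evB K β c ∈ w.asIdeal → v ∈ W)
    (hy : Ideal.span {evB K β c} ≠ 0) (F : Finset (HeightOneSpectrum (𝓞 L))) (hF : F ⊆ dv hy)
    (h1 : ∀ w ∈ F, bl (K := K) w ∉ Bad) (h2 : ∀ w ∈ F, ¬ NSB β c (bl (K := K) w)) :
    ∑ w ∈ F, ex (evB K β c) w * lN w ≤ ∑ v ∈ W, lN v := by
  classical
  have hmem : ∀ w ∈ F, evB K β c ∈ w.asIdeal := fun w hw => (mem_dv hy w).1 (hF hw)
  have hterm : ∀ w ∈ F, ex (evB K β c) w * lN w ≤ lN (bl (K := K) w) := by
    intro w hw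
    have he : ex (evB K β c) w ≤ 1 := by
      by_contra hcon
      push Not at hcon
      refine h2 w hw ⟨w.asIdeal ^ 2, ⟨w, bl_over w, Or.inl rfl⟩, ?_⟩
      exact Ideal.pow_le_pow_right hcon (mem_pow_ex hy (hF hw))
    have hN : Ideal.absNorm w.asIdeal ≤ Ideal.absNorm (bl (K := K) w).asIdeal := by
      by_contra hcon
      push Not at hcon
      exact h2 w hw ⟨w.asIdeal, ⟨w, bl_over w, Or.inr (Or.inr ⟨rfl, hcon⟩)⟩, hmem w hw⟩
    have h3 : lN w ≤ lN (bl (K := K) w) := by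
      unfold lN
      have h0 : Ideal.absNorm w.asIdeal ≠ 0 := by
        rw [Ne, Ideal.absNorm_eq_zero_iff]
        exact w.ne_bot
      exact Real.log_le_log (by exact_mod_cast Nat.pos_of_ne_zero h0) (by exact_mod_cast hN)
    have h4 : (ex (evB K β c) w : ℝ) ≤ 1 := by exact_mod_cast he
    calc ex (evB K β c) w * lN w ≤ 1 * lN w := mul_le_mul_of_nonneg_right h4 (lN_nonneg w)
      _ ≤ _ := by rw [one_mul]; exact h3
  have hinj : Set.InjOn (bl (K := K)) (F : Set (HeightOneSpectrum (𝓞 L))) := by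
    intro w hw w' hw' h
    by_contra hne
    refine h2 w hw ⟨w.asIdeal * w'.asIdeal, ⟨w, bl_over w, Or.inr (Or.inl ⟨w', ?_, Ne.symm hne, rfl⟩)⟩,
      mem_mul (Ne.symm hne) (hmem w hw) (hmem w' hw')⟩
    rw [h]
    exact bl_over w'
  calc ∑ w ∈ F, ex (evB K β c) w * lN w ≤ ∑ w ∈ F, lN (bl (K := K) w) := Finset.sum_le_sum hterm
    _ = ∑ v ∈ F.image (bl (K := K)), lN v := (Finset.sum_image hinj).symm
    _ ≤ ∑ v ∈ W, lN v := by
        refine Finset.sum_le_sum_of_subset_of_nonneg ?_ fun v _ _ => lN_nonneg v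
        intro v hv
        obtain ⟨w, hw, rfl⟩ := Finset.mem_image.1 hv
        exact hW _ (h1 w hw) w (bl_over w) (hmem w hw)

/-- large primes have no double zeros -/
lemma no_large {m : ℕ} (β : Fin m → 𝓞 L) (c : Fin m → 𝓞 K)
    (hy : Ideal.span {evB K β c} ≠ 0) (s B : ℕ) (hB : 1 ≤ B) (C₁ δ : ℝ) (hC₁ : 1 ≤ C₁)
    (hup : ∀ w : InfinitePlace L, w (evB K β c : L) ≤ C₁ * B)
    (hs : (finrank ℚ L : ℝ) + 1 / 2 ≤ 2 * ((finrank ℚ K : ℝ) * s - δ))
    (hBC : C₁ ^ (2 * finrank ℚ L) < B) (v : HeightOneSpectrum (𝓞 K))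
    (htyp : ∀ b : Ideal (𝓞 L), IsTyp v b → b ≠ ⊥ ∧ Ideal.absNorm v.asIdeal ^ 2 ≤ Ideal.absNorm b)
    (hNS : NSB β c v) :
    (Ideal.absNorm v.asIdeal : ℝ) ≤ (B : ℝ) ^ ((finrank ℚ K : ℝ) * s - δ) := by
  by_contra hcon
  push Not at hcon
  obtain ⟨b, hb, hyb⟩ := hNS
  obtain ⟨hb0, hbN⟩ := htyp b hb
  have hB1 : (1 : ℝ) ≤ B := by exact_mod_cast hB
  have hB0 : (0 : ℝ) < B := by linarith
  have hy0 : evB K β c ≠ 0 := by
    intro h
    apply hy
    rw [h]
    exact Ideal.span_singleton_eq_bot.2 rfl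
  -- the norm of `y`
  have hNy0 : Ideal.absNorm (Ideal.span {evB K β c}) ≠ 0 := by
    rw [Ne, Ideal.absNorm_eq_zero_iff]
    exact hy
  have h1 : Ideal.absNorm b ≤ Ideal.absNorm (Ideal.span {evB K β c}) :=
    Nat.le_of_dvd (Nat.pos_of_ne_zero hNy0)
      (Ideal.absNorm_dvd_absNorm_of_le ((Ideal.span_singleton_le_iff_mem b).2 hyb))
  have h2 : Real.log (Ideal.absNorm (Ideal.span {evB K β c}) : ℝ) ≤
      finrank ℚ L * Real.log (C₁ * B) := by
    rw [log_norm hy0, ← InfinitePlace.sum_mult_eq, Nat.cast_sum, Finset.sum_mul]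
    refine Finset.sum_le_sum fun w _ => ?_
    refine mul_le_mul_of_nonneg_left ?_ (Nat.cast_nonneg _)
    refine Real.log_le_log ?_ (hup w)
    exact w.pos_iff.2 (by rw [Ne, RingOfIntegers.coe_eq_zero_iff]; exact hy0)
  have h3 : Real.log ((Ideal.absNorm v.asIdeal : ℝ) ^ 2) ≤ finrank ℚ L * Real.log (C₁ * B) := by
    refine le_trans ?_ h2
    have h4 : (0 : ℝ) < (Ideal.absNorm v.asIdeal : ℝ) := lt_trans (by positivity) hcon
    refine Real.log_le_log (by positivity) ?_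
    exact_mod_cast hbN.trans h1
  have h5 : ((finrank ℚ K : ℝ) * s - δ) * Real.log B < Real.log (Ideal.absNorm v.asIdeal : ℝ) := by
    rw [← Real.log_rpow hB0]
    exact Real.log_lt_log (by positivity) hcon
  have h6 : (2 * (finrank ℚ L : ℝ)) * Real.log C₁ < Real.log B := by
    have h7 := Real.log_lt_log (by positivity) hBC
    rw [Real.log_pow] at h7
    push_cast at h7
    exact h7
  rw [Real.log_pow, Real.log_mul (by linarith) (by linarith)] at h3
  push_cast at h3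
  have hlB : 0 ≤ Real.log B := Real.log_nonneg hB1
  have h8 : ((finrank ℚ L : ℝ) + 1 / 2) * Real.log B ≤
      (2 * ((finrank ℚ K : ℝ) * s - δ)) * Real.log B := mul_le_mul_of_nonneg_right hs hlB
  nlinarith

/-- the main inequality -/
lemma key {m : ℕ} (β : Fin m → 𝓞 L) (c : Fin m → 𝓞 K)
    (Bad W : Finset (HeightOneSpectrum (𝓞 K)))
    (hW : ∀ v ∉ Bad, ∀ w : HeightOneSpectrum (𝓞 L), w.asIdeal.LiesOver v.asIdeal →
        evB K β c ∈ w.asIdeal → v ∈ W)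
    (WB : Finset (HeightOneSpectrum (𝓞 L))) (hWB : ∀ w, bl (K := K) w ∈ Bad → w ∈ WB)
    (B : ℕ) (hB : 2 ≤ B) (η δ : ℝ) (hη : 0 < η)
    (hlow : ∀ w : InfinitePlace L, (B : ℝ) ^ (1 - η) < w (evB K β c : L))
    (hbad : ∀ w ∈ WB, ∀ e : ℕ, 1 ≤ e → evB K β c ∈ w.asIdeal ^ e → e * lN w < η * Real.log B)
    (hsmall : ∀ F : Finset (HeightOneSpectrum (𝓞 L)), (∀ w ∈ F, bl (K := K) w ∉ Bad ∧
      (Ideal.absNorm (bl (K := K) w).asIdeal : ℝ) ≤ (B : ℝ) ^ δ ∧ NSB β c (bl (K := K) w)) →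
      ∀ e : HeightOneSpectrum (𝓞 L) → ℕ, (∀ w ∈ F, evB K β c ∈ w.asIdeal ^ e w) →
        ∑ w ∈ F, e w * lN w < η * Real.log B)
    (hlarge : ∀ v ∉ Bad, NSB β c v → (Ideal.absNorm v.asIdeal : ℝ) ≤ (B : ℝ) ^ δ) :
    ((finrank ℚ L : ℝ) * (1 - η) - (WB.card + 1) * η) * Real.log B ≤ ∑ v ∈ W, lN v := by
  classical
  have hB1 : (2 : ℝ) ≤ B := by exact_mod_cast hB
  have hB0 : (0 : ℝ) < B := by linarith
  have hlB : 0 < Real.log B := Real.log_pos (by linarith)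
  have hy0 : evB K β c ≠ 0 := by
    intro h
    obtain ⟨w⟩ : Nonempty (InfinitePlace L) := inferInstance
    have h1 := hlow w
    have hz : w (((0 : 𝓞 L)) : L) = 0 := by simp
    rw [h, hz] at h1
    have h2 : (0 : ℝ) ≤ (B : ℝ) ^ (1 - η) := by positivity
    linarith
  have hy : Ideal.span {evB K β c} ≠ 0 := fun h => hy0 (Ideal.span_singleton_eq_bot.1 h)
  -- the lower bound for the norm
  have h1 : ((finrank ℚ L : ℝ) * (1 - η)) * Real.log B ≤
      ∑ w ∈ dv hy, ex (evB K β c) w * lN w := by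
    rw [← log_norm_fin hy, log_norm hy0, ← InfinitePlace.sum_mult_eq, Nat.cast_sum,
      Finset.sum_mul, Finset.sum_mul]
    refine Finset.sum_le_sum fun w _ => ?_
    rw [mul_assoc]
    refine mul_le_mul_of_nonneg_left ?_ (Nat.cast_nonneg _)
    rw [← Real.log_rpow hB0]
    exact Real.log_le_log (by positivity) (hlow w).le
  -- the three parts
  set P : HeightOneSpectrum (𝓞 L) → Prop := fun w => bl (K := K) w ∈ Bad with hP
  set Q : HeightOneSpectrum (𝓞 L) → Prop := fun w => NSB β c (bl (K := K) w) with hQ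
  have h2 : ∑ w ∈ (dv hy).filter P, ex (evB K β c) w * lN w ≤ WB.card * (η * Real.log B) := by
    have h3 : (dv hy).filter P ⊆ WB := fun w hw => hWB w (Finset.mem_filter.1 hw).2
    calc ∑ w ∈ (dv hy).filter P, ex (evB K β c) w * lN w ≤
          ∑ w ∈ (dv hy).filter P, η * Real.log B := by
          refine Finset.sum_le_sum fun w hw => ?_
          have h4 := (Finset.mem_filter.1 hw).1
          exact (hbad w (h3 hw) _ (ex_pos hy h4) (mem_pow_ex hy h4)).le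
      _ = ((dv hy).filter P).card * (η * Real.log B) := by rw [Finset.sum_const, nsmul_eq_mul]
      _ ≤ WB.card * (η * Real.log B) := by
          refine mul_le_mul_of_nonneg_right ?_ (by positivity)
          exact_mod_cast Finset.card_le_card h3
  have h3 : ∑ w ∈ ((dv hy).filter fun w => ¬ P w).filter Q, ex (evB K β c) w * lN w <
      η * Real.log B := by
    refine hsmall _ (fun w hw => ?_) _ (fun w hw => ?_)
    · have h4 := (Finset.mem_filter.1 hw).2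
      have h5 := (Finset.mem_filter.1 (Finset.mem_filter.1 hw).1).2
      exact ⟨h5, hlarge _ h5 h4, h4⟩
    · exact mem_pow_ex hy (Finset.mem_filter.1 (Finset.mem_filter.1 hw).1).1
  have h4 : ∑ w ∈ ((dv hy).filter fun w => ¬ P w).filter (fun w => ¬ Q w),
      ex (evB K β c) w * lN w ≤ ∑ v ∈ W, lN v := by
    refine good_part β c Bad W hW hy _ ?_ (fun w hw => ?_) (fun w hw => ?_)
    · exact (Finset.filter_subset _ _).trans (Finset.filter_subset _ _)
    · exact (Finset.mem_filter.1 (Finset.mem_filter.1 hw).1).2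
    · exact (Finset.mem_filter.1 hw).2
  have h5 := Finset.sum_filter_add_sum_filter_not (dv hy) P fun w => ex (evB K β c) w * lN w
  have h6 := Finset.sum_filter_add_sum_filter_not ((dv hy).filter fun w => ¬ P w) Q
    fun w => ex (evB K β c) w * lN w
  nlinarith

end key

/-- **(CV/COREB)** -/
theorem t (h1 : StmTypB) (h2 : StmLargeB) (h3 : StmSmallB) (h4 : StmPlacesB) : StmCoreB := by
  intro K L _ _ _ _ _ m β i0 i1 hβ hθ s ι hι hi0 hi1 hli hk
  classical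
  have hfd : FiniteDimensional K L := Module.Finite.of_restrictScalars_finite ℚ K L
  have hk1 : 1 ≤ finrank K L := finrank_pos
  have hn1 : 1 ≤ finrank ℚ K := finrank_pos
  have hnk : finrank ℚ K * finrank K L = finrank ℚ L := Module.finrank_mul_finrank ℚ K L
  obtain ⟨Bad1, hB1⟩ := h1 K L m β i0 i1 hβ hθ
  obtain ⟨Bad2, hB2⟩ := h2 K L m β i0 i1 hβ hθ s ι hι hi0 hi1 hli
  obtain ⟨Bad3, hB3⟩ := h3 K L m β i0 i1 hβ hθ
  refine ⟨Bad1 ∪ Bad2 ∪ Bad3, fun Bad hBad κ hκ => ?_⟩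
  have hs1 : ∀ v ∉ Bad, v ∉ Bad1 := fun v hv h => hv (hBad (by
    rw [Finset.mem_union, Finset.mem_union]; exact Or.inl (Or.inl h)))
  have hs2 : ∀ v ∉ Bad, v ∉ Bad2 := fun v hv h => hv (hBad (by
    rw [Finset.mem_union, Finset.mem_union]; exact Or.inl (Or.inr h)))
  have hs3 : ∀ v ∉ Bad, v ∉ Bad3 := fun v hv h => hv (hBad (by
    rw [Finset.mem_union]; exact Or.inr h))
  have hTyp : ∀ v ∉ Bad1, ∀ b : Ideal (𝓞 L), IsTyp v b →
      b ≠ ⊥ ∧ Ideal.absNorm v.asIdeal ^ 2 ≤ Ideal.absNorm b := fun v hv =>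
    (hB1 v hv).2.2.2.2.2.1
  -- the primes above `Bad`
  have hWBfin : {w : HeightOneSpectrum (𝓞 L) | bl (K := K) w ∈ Bad}.Finite := by
    have h5 : {w : HeightOneSpectrum (𝓞 L) | bl (K := K) w ∈ Bad} ⊆
        ⋃ v ∈ Bad, HeightOneSpectrum.asIdeal ⁻¹' (Ideal.primesOver v.asIdeal (𝓞 L)) := by
      intro w hw
      rw [Set.mem_iUnion₂]
      exact ⟨bl w, hw, ⟨w.isPrime, bl_over w⟩⟩
    refine Set.Finite.subset (Set.Finite.biUnion Bad.finite_toSet fun v _ => ?_) h5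
    have : v.asIdeal.IsMaximal := v.isMaximal
    exact (IsDedekindDomain.primesOver_finite v.asIdeal (𝓞 L)).preimage
      (fun x _ y _ h => HeightOneSpectrum.ext h)
  set WB := hWBfin.toFinset with hWB
  have hWBm : ∀ w, bl (K := K) w ∈ Bad → w ∈ WB := fun w hw => by
    rw [hWB, Set.Finite.mem_toFinset]; exact hw
  -- the parameters
  set kn : ℝ := (finrank ℚ L : ℝ) with hkn
  have hkn' : kn = finrank ℚ K * finrank K L := by rw [hkn, ← hnk]; push_cast; rfl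
  have hkn0 : 0 ≤ kn := Nat.cast_nonneg _
  have hn0 : (1 : ℝ) ≤ finrank ℚ K := by exact_mod_cast hn1
  obtain ⟨η, hη0, hη⟩ : ∃ η : ℝ, 0 < η ∧ η * (kn + WB.card + 1) < κ * finrank ℚ K := by
    have h5 : 0 < kn + WB.card + 1 := by positivity
    refine ⟨κ * finrank ℚ K / (2 * (kn + WB.card + 1)), by positivity, ?_⟩
    rw [div_mul_eq_mul_div, div_lt_iff₀ (by positivity)]
    have : 0 < κ * finrank ℚ K := by positivity
    nlinarith
  obtain ⟨δ₀, ν₀, C₀, hδ₀, hν₀, hsm⟩ := hB3 η hη0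
  set δ := min δ₀ (1 / 8) with hδ
  have hδ0 : 0 < δ := lt_min hδ₀ (by norm_num)
  have hδ8 : δ ≤ 1 / 8 := min_le_right _ _
  obtain ⟨ν₁, C₁, hν₁, hla⟩ := hB2 δ hδ0
  obtain ⟨hpl1, hpl2⟩ := h4 K L m β i0 hβ η hη0
  obtain ⟨C₂, hC₂, hup⟩ := evB_le (K := K) β
  -- the exponents
  have hexp : kn + 1 / 2 ≤ 2 * ((finrank ℚ K : ℝ) * s - δ) := by
    have h5 : finrank K L + 1 ≤ 2 * s := by omega
    have h6 : ((finrank K L : ℝ) + 1) ≤ 2 * s := by exact_mod_cast h5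
    have h7 : (finrank ℚ K : ℝ) * ((finrank K L : ℝ) + 1) ≤ finrank ℚ K * (2 * s) :=
      mul_le_mul_of_nonneg_left h6 (by linarith)
    rw [hkn']
    nlinarith
  -- the exceptional sets
  set N : ℝ := (finrank ℚ K : ℝ) * m with hN
  have hN1 : 1 ≤ N := by
    have : (1 : ℝ) ≤ m := by exact_mod_cast (Nat.one_le_iff_ne_zero.2 fun h => by
      subst h; exact i0.elim0)
    rw [hN]
    nlinarith
  let E₁ : InfinitePlace L → ℕ → Set (Fin m → 𝓞 K) := fun w B =>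
    {c ∈ Bx K m B | ‖w.embedding (evB K β c : L)‖ ≤ (B : ℝ) ^ (1 - η)}
  let E₂ : HeightOneSpectrum (𝓞 L) → ℕ → Set (Fin m → 𝓞 K) := fun w B =>
    {c ∈ Bx K m B | ∃ e : ℕ, evB K β c ∈ w.asIdeal ^ e ∧ η * Real.log B ≤ e * lN w ∧ 1 ≤ e}
  let E₃ : ℕ → Set (Fin m → 𝓞 K) := fun B =>
    {c ∈ Bx K m B | ∃ W : Finset (HeightOneSpectrum (𝓞 L)),
      (∀ w ∈ W, ∃ v ∉ Bad3, w.asIdeal.LiesOver v.asIdeal ∧
        (Ideal.absNorm v.asIdeal : ℝ) ≤ (B : ℝ) ^ δ₀ ∧ NSB β c v) ∧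
      ∃ e : HeightOneSpectrum (𝓞 L) → ℕ, (∀ w ∈ W, evB K β c ∈ w.asIdeal ^ e w) ∧
        η * Real.log B ≤ ∑ w ∈ W, e w * lN w}
  let E₄ : ℕ → Set (Fin m → 𝓞 K) := fun B =>
    {c ∈ Bx K m B | ∃ v ∉ Bad2, (B : ℝ) ^ δ ≤ Ideal.absNorm v.asIdeal ∧
      (Ideal.absNorm v.asIdeal : ℝ) ≤ (B : ℝ) ^ ((finrank ℚ K : ℝ) * s - δ) ∧ NSB β c v}
  have hR₁ : Rare N (fun B => ⋃ w ∈ (Finset.univ : Finset (InfinitePlace L)), E₁ w B) :=
    Pool.Agent.N97.DR.Core.Rare.biUnion _ fun w _ => hpl1 w.embedding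
  have hR₂ : Rare N (fun B => ⋃ w ∈ WB, E₂ w B) := Pool.Agent.N97.DR.Core.Rare.biUnion _ fun w _ => hpl2 w
  have hR₃ : Rare N E₃ := ⟨ν₀, C₀, hν₀, hsm⟩
  have hR₄ : Rare N E₄ := ⟨ν₁, C₁, hν₁, hla⟩
  have hR := ((hR₁.union hR₂).union hR₃).union hR₄
  obtain ⟨M, hM⟩ := exists_nat_gt (C₂ ^ (2 * finrank ℚ L))
  refine Pool.Agent.N97.DR.Core.Rare.of_large hN1 hR (max 2 M) (fun B => ?_) (fun B hB => ?_)
  · refine (Bx_finite (K := K) m B).subset ?_
    rintro c (((hc | hc) | hc) | hc)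
    · obtain ⟨w, -, hc⟩ := Set.mem_iUnion₂.1 hc
      exact hc.1
    · obtain ⟨w, -, hc⟩ := Set.mem_iUnion₂.1 hc
      exact hc.1
    · exact hc.1
    · exact hc.1
  · rintro c ⟨hcB, W, hW, hsum⟩
    by_contra hcon
    rw [Set.mem_union, Set.mem_union, Set.mem_union, not_or, not_or, not_or] at hcon
    obtain ⟨⟨⟨hc1, hc2⟩, hc3⟩, hc4⟩ := hcon
    have hB2 : 2 ≤ B := (le_max_left _ _).trans hB
    have hBM : M ≤ B := (le_max_right _ _).trans hB
    have hB1 : 1 ≤ B := by omega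
    have hBr : (1 : ℝ) ≤ B := by exact_mod_cast hB1
    have hBM' : C₂ ^ (2 * finrank ℚ L) < B := hM.trans_le (by exact_mod_cast hBM)
    have hlow : ∀ w : InfinitePlace L, (B : ℝ) ^ (1 - η) < w (evB K β c : L) := by
      intro w
      by_contra h
      push Not at h
      refine hc1 (Set.mem_iUnion₂.2 ⟨w, Finset.mem_univ w, hcB, ?_⟩)
      rw [InfinitePlace.norm_embedding_eq]
      exact h
    have hbad : ∀ w ∈ WB, ∀ e : ℕ, 1 ≤ e → evB K β c ∈ w.asIdeal ^ e →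
        e * lN w < η * Real.log B := by
      intro w hw e he hye
      by_contra h
      push Not at h
      exact hc2 (Set.mem_iUnion₂.2 ⟨w, hw, hcB, e, hye, h, he⟩)
    have hy0 : evB K β c ≠ 0 := by
      intro h
      obtain ⟨w⟩ : Nonempty (InfinitePlace L) := inferInstance
      have h5 := hlow w
      have hz : w (((0 : 𝓞 L)) : L) = 0 := by simp
      rw [h, hz] at h5
      have h6 : (0 : ℝ) ≤ (B : ℝ) ^ (1 - η) := by positivity
      linarith
    have hy : Ideal.span {evB K β c} ≠ 0 := fun h => hy0 (Ideal.span_singleton_eq_bot.1 h)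
    have hlarge : ∀ v ∉ Bad, NSB β c v → (Ideal.absNorm v.asIdeal : ℝ) ≤ (B : ℝ) ^ δ := by
      intro v hv hNS
      by_contra h
      push Not at h
      have h5 := no_large β c hy s B hB1 C₂ δ hC₂ (hup B c hcB) hexp hBM' v
        (hTyp v (hs1 v hv)) hNS
      exact hc4 ⟨hcB, v, hs2 v hv, h.le, h5, hNS⟩
    have hsmall : ∀ F : Finset (HeightOneSpectrum (𝓞 L)), (∀ w ∈ F, bl (K := K) w ∉ Bad ∧
        (Ideal.absNorm (bl (K := K) w).asIdeal : ℝ) ≤ (B : ℝ) ^ δ ∧ NSB β c (bl (K := K) w)) →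
        ∀ e : HeightOneSpectrum (𝓞 L) → ℕ, (∀ w ∈ F, evB K β c ∈ w.asIdeal ^ e w) →
          ∑ w ∈ F, e w * lN w < η * Real.log B := by
      intro F hF e he
      by_contra h
      push Not at h
      refine hc3 ⟨hcB, F, fun w hw => ?_, e, he, h⟩
      obtain ⟨h5, h6, h7⟩ := hF w hw
      exact ⟨bl w, hs3 _ h5, bl_over w, h6.trans (rpow_le_rpow_nat hB1 (min_le_left _ _)), h7⟩
    have hfin := key β c Bad W hW WB hWBm B hB2 η δ hη0 hlow hbad hsmall hlarge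
    have hlB : 0 < Real.log B := Real.log_pos (by
      have : (2 : ℝ) ≤ B := by exact_mod_cast hB2
      linarith)
    have h5 : (kn * (1 - η) - (WB.card + 1) * η) * Real.log B ≤
        (finrank K L - κ) * ((finrank ℚ K : ℝ) * Real.log B) := hfin.trans hsum
    have h6 : (finrank K L - κ) * ((finrank ℚ K : ℝ) * Real.log B) =
        (kn - κ * finrank ℚ K) * Real.log B := by rw [hkn']; ring
    rw [h6] at h5
    have h7 := le_of_mul_le_mul_right h5 hlB
    nlinarith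

end Pool.Agent.N490.CV.CoreB
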